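import Pool.Agent.L0h13.SD.Stm

/-!
# Project SD: EPS, RES, SWP, SWO, ADJ
-/

set_option autoImplicit false
set_option linter.all false

namespace Pool.Agent.L0h56.SD

open Pool.Agent.L0h13.SD
open Equiv

/-! ### EPS -/

lemma prod_reorder {N : ℕ} (σ : Perm (Fin N)) (h : Fin N → Fin N → ℤ) (hs : ∀ i j, h i j = h j i) :
    ∏ p : Fin N × Fin N, (if p.1 < p.2 then h p.1 p.2 else 1) =
      ∏ p : Fin N × Fin N, (if σ p.1 < σ p.2 then h p.1 p.2 else 1) := by
  rw [← Finset.prod_filter, ← Finset.prod_filter]
  refine Finset.prod_nbij' (fun p => if σ p.1 < σ p.2 then p else (p.2, p.1))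
    (fun p => if p.1 < p.2 then p else (p.2, p.1)) ?_ ?_ ?_ ?_ ?_
  · rintro ⟨i, j⟩ hp
    simp only [Finset.mem_filter, Finset.mem_univ, true_and] at hp ⊢
    split_ifs with h1
    · exact h1
    · have : σ i ≠ σ j := fun h => hp.ne (σ.injective h)
      exact lt_of_le_of_ne (not_lt.1 h1) this.symm
  · rintro ⟨i, j⟩ hp
    simp only [Finset.mem_filter, Finset.mem_univ, true_and] at hp ⊢
    split_ifs with h1
    · exact h1
    · have : i ≠ j := fun h => hp.ne (congrArg σ h)
      exact lt_of_le_of_ne (not_lt.1 h1) this.symm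
  · rintro ⟨i, j⟩ hp
    simp only [Finset.mem_filter, Finset.mem_univ, true_and] at hp ⊢
    by_cases h1 : σ i < σ j
    · simp only [h1, if_true, hp]
    · simp only [h1, if_false]
      rw [if_neg (not_lt.2 hp.le)]
  · rintro ⟨i, j⟩ hp
    simp only [Finset.mem_filter, Finset.mem_univ, true_and] at hp ⊢
    by_cases h1 : i < j
    · simp only [h1, if_true, hp]
    · simp only [h1, if_false]
      rw [if_neg (not_lt.2 hp.le)]
  · rintro ⟨i, j⟩ hp
    simp only [Finset.mem_filter, Finset.mem_univ, true_and] at hp ⊢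
    split_ifs with h1
    · rfl
    · exact hs i j

lemma sq_one (a b : ℕ) : ((-1 : ℤ)) ^ (a * b) * (-1) ^ (a * b) = 1 := by
  rw [← mul_pow]
  norm_num

theorem t_EPS : S_EPS := by
  refine ⟨fun m r N σ τ w => ?_, fun m r N w => ?_⟩
  · -- the factors
    have h1 : eps m τ (w ∘ τ) = ∏ p : Fin N × Fin N, (if p.1 < p.2 then
        (if (p.1 < p.2 ∧ τ p.2 < τ p.1) ∨ (p.2 < p.1 ∧ τ p.1 < τ p.2) then
          (-1 : ℤ) ^ (par m (w (τ p.1)) * par m (w (τ p.2))) else 1) else 1) := by
      unfold eps
      apply Finset.prod_congr rfl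
      rintro ⟨i, j⟩ _
      simp only [Function.comp_apply]
      by_cases h : i < j
      · simp only [h, true_and, not_lt.2 h.le, false_and, or_false, if_true]
      · simp only [h, false_and, if_false]
    have h2 : ∏ p : Fin N × Fin N, (if p.1 < p.2 then
        (if (p.1 < p.2 ∧ τ p.2 < τ p.1) ∨ (p.2 < p.1 ∧ τ p.1 < τ p.2) then
          (-1 : ℤ) ^ (par m (w (τ p.1)) * par m (w (τ p.2))) else 1) else 1) =
        ∏ p : Fin N × Fin N, (if σ p.1 < σ p.2 then
        (if (σ p.1 < σ p.2 ∧ τ (σ p.2) < τ (σ p.1)) ∨ (σ p.2 < σ p.1 ∧ τ (σ p.1) < τ (σ p.2)) then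
          (-1 : ℤ) ^ (par m (w (τ (σ p.1))) * par m (w (τ (σ p.2)))) else 1) else 1) := by
      exact (Fintype.prod_equiv (σ.prodCongr σ) _ _ (fun p => rfl)).symm
    have h3 := prod_reorder σ (fun i j => if (σ i < σ j ∧ τ (σ j) < τ (σ i)) ∨ (σ j < σ i ∧ τ (σ i) < τ (σ j)) then
          (-1 : ℤ) ^ (par m (w (τ (σ i))) * par m (w (τ (σ j)))) else 1) (fun i j => by
      have e : ((σ i < σ j ∧ τ (σ j) < τ (σ i)) ∨ (σ j < σ i ∧ τ (σ i) < τ (σ j))) ↔
          ((σ j < σ i ∧ τ (σ i) < τ (σ j)) ∨ (σ i < σ j ∧ τ (σ j) < τ (σ i))) := or_comm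
      simp only [e, mul_comm (par m (w (τ (σ i))))])
    rw [h1, h2, ← h3]
    unfold eps
    rw [← Finset.prod_mul_distrib]
    apply Finset.prod_congr rfl
    rintro ⟨i, j⟩ _
    simp only [Function.comp_apply, Perm.mul_apply]
    by_cases h : i < j
    · have n1 : σ i ≠ σ j := fun h' => h.ne (σ.injective h')
      have n2 : τ (σ i) ≠ τ (σ j) := fun h' => n1 (τ.injective h')
      rcases lt_or_gt_of_ne n1 with a1 | a1 <;> rcases lt_or_gt_of_ne n2 with a2 | a2
      · simp [h, a1, a2, not_lt.2 a1.le, not_lt.2 a2.le]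
      · simp [h, a1, a2, not_lt.2 a1.le, not_lt.2 a2.le]
      · simp only [h, a1, a2, not_lt.2 a1.le, not_lt.2 a2.le, and_false, if_false, false_and, false_or,
          true_and, if_true, or_true]
        exact (sq_one _ _).symm
      · simp [h, a1, a2, not_lt.2 a1.le, not_lt.2 a2.le]
    · simp [h]
  · unfold eps
    apply Finset.prod_eq_one
    rintro ⟨i, j⟩ _
    rw [if_neg]
    rintro ⟨h1, h2⟩
    exact lt_asymm h1 h2

/-! ### RES -/

theorem t_RES : S_RES := by
  refine ⟨fun m r N σ w => ?_, fun m r N σ w => ?_, fun m r N M σ τ w => ?_⟩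
  · unfold eps
    rw [Fintype.prod_prod_type, Fintype.prod_prod_type, Fin.prod_univ_castSucc]
    simp only [Fin.prod_univ_castSucc, dn_last, dn_castSucc]
    have e1 : ∀ x : Fin N, ¬ (x.castSucc < Fin.last N ∧ Fin.last N < (σ x).castSucc) := fun x h =>
      absurd h.2 (not_lt.2 (Fin.le_last _))
    have e2 : ∀ x : Fin N, ¬ (Fin.last N < x.castSucc ∧ (σ x).castSucc < Fin.last N) := fun x h =>
      absurd h.1 (not_lt.2 (Fin.le_last _))
    simp only [e1, e2, if_false, Finset.prod_const_one, mul_one, lt_irrefl, false_and, Fin.castSucc_lt_castSucc_iff]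
  · unfold eps
    rw [Fintype.prod_prod_type, Fintype.prod_prod_type, Fin.prod_univ_succ]
    simp only [Fin.prod_univ_succ, Perm.decomposeFin_symm_apply_zero, Perm.decomposeFin_symm_apply_succ, swap_self,
      refl_apply]
    have e1 : ∀ x : Fin N, ¬ ((0 : Fin (N + 1)) < x.succ ∧ (σ x).succ < 0) := fun x h =>
      absurd h.2 (Fin.not_lt_zero _)
    have e2 : ∀ x : Fin N, ¬ (x.succ < 0 ∧ (0 : Fin (N + 1)) < (σ x).succ) := fun x h =>
      absurd h.1 (Fin.not_lt_zero _)
    simp only [e1, e2, if_false, Finset.prod_const_one, mul_one, one_mul, lt_irrefl, false_and, Fin.succ_lt_succ_iff]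
  · unfold eps
    rw [Fintype.prod_prod_type, Fintype.prod_prod_type, Fintype.prod_prod_type, Fin.prod_univ_add]
    simp only [Fin.prod_univ_add, blk_castAdd, blk_natAdd]
    have e1 : ∀ (x : Fin N) (y : Fin M), ¬ (Fin.castAdd M x < Fin.natAdd N y ∧
        Fin.natAdd N (τ y) < Fin.castAdd M (σ x)) := fun x y h => by
      have := h.2
      rw [Fin.lt_def] at this
      simp at this
      omega
    have e2 : ∀ (x : Fin N) (y : Fin M), ¬ (Fin.natAdd N y < Fin.castAdd M x ∧
        Fin.castAdd M (σ x) < Fin.natAdd N (τ y)) := fun x y h => by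
      have := h.1
      rw [Fin.lt_def] at this
      simp at this
      omega
    simp only [e1, e2, if_false, Finset.prod_const_one, mul_one, one_mul]
    congr 1
    simp only [Fin.natAdd_lt_natAdd_iff]

/-! ### The exchange of two letters -/

lemma eps_swap (m r N : ℕ) (p q : Fin N) (w : Fin N → Fin r) (hpq : p < q) :
    eps m (swap p q) w = (-1) ^ (par m (w p) * par m (w q) +
      (par m (w p) + par m (w q)) * ∑ l : Fin N, if p < l ∧ l < q then par m (w l) else 0) := by
  have hpt : ∀ x : Fin N × Fin N, (if x.1 < x.2 ∧ swap p q x.2 < swap p q x.1 then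
      (-1 : ℤ) ^ (par m (w x.1) * par m (w x.2)) else 1) =
      (if x.1 = p then (if p < x.2 ∧ x.2 < q then (-1 : ℤ) ^ (par m (w p) * par m (w x.2)) else 1) else 1) *
      (if x.2 = q then (if p < x.1 ∧ x.1 < q then (-1 : ℤ) ^ (par m (w q) * par m (w x.1)) else 1) else 1) *
      (if x.1 = p then (if x.2 = q then (-1 : ℤ) ^ (par m (w p) * par m (w q)) else 1) else 1) := by
    rintro ⟨i, j⟩
    simp only
    rcases eq_or_ne i p with hi | hi
    · subst hi
      rcases eq_or_ne j q with hj | hj
      · subst hj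
        simp [swap_apply_left, swap_apply_right, hpq]
      · rcases eq_or_ne j i with hji | hji
        · subst hji
          simp [hj]
        · rw [swap_apply_left, swap_apply_of_ne_of_ne hji hj]
          simp [hj]
    · rcases eq_or_ne i q with hiq | hiq
      · subst hiq
        rw [swap_apply_right]
        rcases eq_or_ne j p with hj | hj
        · subst hj
          rw [if_neg (fun h => absurd h.1 (not_lt.2 hpq.le))]
          simp [hi, hpq.ne]
        · rcases eq_or_ne j i with hji | hji
          · subst hji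
            simp [hi]
          · rw [swap_apply_of_ne_of_ne hj hji, if_neg (fun h => absurd (h.1.trans h.2) (not_lt.2 hpq.le))]
            simp [hi, hji]
      · rw [swap_apply_of_ne_of_ne hi hiq]
        rcases eq_or_ne j q with hj | hj
        · subst hj
          rw [swap_apply_right]
          by_cases h : p < i ∧ i < j
          · rw [if_pos ⟨h.2, h.1⟩, if_neg hi, if_pos rfl, if_pos h, if_neg hi, mul_comm (par m (w i))]
            ring
          · rw [if_neg (fun h' => h ⟨h'.2, h'.1⟩), if_neg hi, if_pos rfl, if_neg h, if_neg hi]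
            ring
        · rcases eq_or_ne j p with hjp | hjp
          · subst hjp
            rw [swap_apply_left, if_neg (fun h => absurd (h.1.trans hpq) (not_lt.2 h.2.le))]
            simp [hi, hj]
          · rw [swap_apply_of_ne_of_ne hjp hj, if_neg (fun h => lt_asymm h.1 h.2)]
            simp [hi, hj]
  unfold eps
  rw [Finset.prod_congr rfl fun x _ => hpt x, Finset.prod_mul_distrib, Finset.prod_mul_distrib]
  have e1 : ∏ x : Fin N × Fin N, (if x.1 = p then
      (if p < x.2 ∧ x.2 < q then (-1 : ℤ) ^ (par m (w p) * par m (w x.2)) else 1) else 1) =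
      (-1) ^ (par m (w p) * ∑ l : Fin N, if p < l ∧ l < q then par m (w l) else 0) := by
    rw [Fintype.prod_prod_type, Finset.prod_eq_single p]
    · simp only [if_true]
      rw [Finset.mul_sum, ← Finset.prod_pow_eq_pow_sum]
      apply Finset.prod_congr rfl
      intro l _
      split_ifs <;> simp
    · intro i _ hi
      simp [hi]
    · intro h
      exact absurd (Finset.mem_univ _) h
  have e2 : ∏ x : Fin N × Fin N, (if x.2 = q then
      (if p < x.1 ∧ x.1 < q then (-1 : ℤ) ^ (par m (w q) * par m (w x.1)) else 1) else 1) =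
      (-1) ^ (par m (w q) * ∑ l : Fin N, if p < l ∧ l < q then par m (w l) else 0) := by
    rw [Fintype.prod_prod_type_right, Finset.prod_eq_single q]
    · simp only [if_true]
      rw [Finset.mul_sum, ← Finset.prod_pow_eq_pow_sum]
      apply Finset.prod_congr rfl
      intro l _
      split_ifs <;> simp
    · intro i _ hi
      simp [hi]
    · intro h
      exact absurd (Finset.mem_univ _) h
  have e3 : ∏ x : Fin N × Fin N, (if x.1 = p then (if x.2 = q then (-1 : ℤ) ^ (par m (w p) * par m (w q)) else 1) else 1) =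
      (-1) ^ (par m (w p) * par m (w q)) := by
    rw [Finset.prod_eq_single (p, q)]
    · simp
    · rintro ⟨i, j⟩ _ hij
      by_cases h : i = p
      · subst h
        have : j ≠ q := fun h => hij (by rw [h])
        simp [this]
      · simp [h]
    · intro h
      exact absurd (Finset.mem_univ _) h
  rw [e1, e2, e3, ← pow_add, ← pow_add]
  congr 1
  ring

lemma par_sq {r : ℕ} (m : ℕ) (a : Fin r) : par m a * par m a = par m a := by
  unfold par
  split_ifs <;> rfl

theorem t_SWP : S_SWP := by
  intro m r N p q w hpq hw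
  have key : ∀ p q : Fin N, p < q → w p = w q → eps m (swap p q) w = (-1) ^ par m (w p) := by
    intro p q h hw
    rw [eps_swap m r N p q w h, ← hw, par_sq, pow_add, ← two_mul, mul_assoc, pow_mul]
    simp
  rcases lt_or_gt_of_ne hpq with h | h
  · exact key p q h hw
  · rw [swap_comm, key q p h hw.symm, hw]

theorem t_SWO : S_SWO := by
  intro m r N p w
  rw [eps_swap m r (N + 1) 0 p.succ w (Fin.succ_pos p), Fin.sum_univ_succ]
  congr 2
  simp only [lt_irrefl, false_and, if_false, zero_add, Fin.succ_pos, true_and, Fin.succ_lt_succ_iff]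

theorem t_ADJ : S_ADJ := by
  intro m r N i w
  rw [eps_swap m r (N + 1) i.castSucc i.succ w Fin.castSucc_lt_succ]
  have e : ∀ l : Fin (N + 1), ¬ (i.castSucc < l ∧ l < i.succ) := by
    rintro l ⟨h1, h2⟩
    rw [Fin.lt_def] at h1 h2
    simp at h1 h2
    omega
  simp only [e, if_false, Finset.sum_const_zero, mul_zero, add_zero]

end Pool.Agent.L0h56.SD
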