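import Pool.Agent.L0h13.SD.Stm

/-!
# Project SD: TRC
-/

set_option autoImplicit false
set_option linter.all false

namespace Pool.Agent.L0h56.SD

open Pool.Agent.L0h13.SD
open Equiv

lemma sum_cons {K : Type*} [AddCommMonoid K] {r N : ℕ} (f : (Fin (N + 1) → Fin r) → K) :
    ∑ w : Fin (N + 1) → Fin r, f w = ∑ a : Fin r, ∑ v : Fin N → Fin r, f (Fin.cons a v) := by
  rw [← Fintype.sum_prod_type' (f := fun (a : Fin r) (v : Fin N → Fin r) => f (Fin.cons a v))]
  exact (Fintype.sum_equiv (Fin.consEquiv (fun _ : Fin (N + 1) => Fin r)) _ _ (fun p => rfl)).symm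

lemma fix_zero {r N : ℕ} (e : Perm (Fin N)) (a : Fin r) (v : Fin N → Fin r) :
    ((Fin.cons a v : Fin (N + 1) → Fin r) ∘ (Perm.decomposeFin.symm (0, e)) = Fin.cons a v) ↔ v ∘ e = v := by
  constructor
  · intro h
    funext x
    have := congrFun h x.succ
    rw [Function.comp_apply, Perm.decomposeFin_symm_apply_succ] at this
    simpa using this
  · intro h
    funext x
    refine Fin.cases ?_ (fun x => ?_) x
    · rw [Function.comp_apply, Perm.decomposeFin_symm_apply_zero]
    · rw [Function.comp_apply, Perm.decomposeFin_symm_apply_succ]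
      have := congrFun h x
      simpa using this

lemma fix_succ {r N : ℕ} (e : Perm (Fin N)) (q : Fin N) (a : Fin r) (v : Fin N → Fin r) :
    ((Fin.cons a v : Fin (N + 1) → Fin r) ∘ (Perm.decomposeFin.symm (q.succ, e)) = Fin.cons a v) ↔
      (v ∘ e = v ∧ a = v q) := by
  constructor
  · intro h
    have h0 : a = v q := by
      have := congrFun h 0
      rw [Function.comp_apply, Perm.decomposeFin_symm_apply_zero] at this
      simpa using this.symm
    refine ⟨?_, h0⟩
    funext x
    have := congrFun h x.succ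
    rw [Function.comp_apply, Perm.decomposeFin_symm_apply_succ] at this
    by_cases hx : e x = q
    · rw [hx, swap_apply_right, Fin.cons_zero, Fin.cons_succ] at this
      rw [Function.comp_apply, hx, ← h0, this]
    · rw [swap_apply_of_ne_of_ne (Fin.succ_ne_zero _) (fun h => hx (Fin.succ_injective _ h)), Fin.cons_succ,
        Fin.cons_succ] at this
      exact this
  · rintro ⟨h, h0⟩
    funext x
    refine Fin.cases ?_ (fun x => ?_) x
    · rw [Function.comp_apply, Perm.decomposeFin_symm_apply_zero, Fin.cons_succ, Fin.cons_zero, h0]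
    · rw [Function.comp_apply, Perm.decomposeFin_symm_apply_succ]
      have h1 := congrFun h x
      rw [Function.comp_apply] at h1
      by_cases hx : e x = q
      · rw [hx, swap_apply_right, Fin.cons_zero, Fin.cons_succ, h0, ← h1, hx]
      · rw [swap_apply_of_ne_of_ne (Fin.succ_ne_zero _) (fun h => hx (Fin.succ_injective _ h)), Fin.cons_succ,
          Fin.cons_succ, h1]

lemma dec_mul {N : ℕ} (e : Perm (Fin N)) (p : Fin (N + 1)) :
    (Perm.decomposeFin.symm (p, e) : Perm (Fin (N + 1))) = swap 0 p * Perm.decomposeFin.symm (0, e) := by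
  ext x
  refine Fin.cases ?_ (fun x => ?_) x
  · rw [Perm.decomposeFin_symm_apply_zero, Perm.mul_apply, Perm.decomposeFin_symm_apply_zero, swap_apply_left]
  · rw [Perm.decomposeFin_symm_apply_succ, Perm.mul_apply, Perm.decomposeFin_symm_apply_succ, swap_self, refl_apply]

lemma eps_succ (h1 : S_EPS) (h2 : S_SWP) (h3 : S_RES) {m r N : ℕ} (e : Perm (Fin N)) (q : Fin N)
    (v : Fin N → Fin r) (hv : v ∘ e = v) :
    eps m (Perm.decomposeFin.symm (q.succ, e)) (Fin.cons (v q) v : Fin (N + 1) → Fin r) =
      (-1) ^ par m (v q) * eps m e v := by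
  set w : Fin (N + 1) → Fin r := Fin.cons (v q) v with hw
  have hfix : w ∘ (Perm.decomposeFin.symm (q.succ, e)) = w := (fix_succ e q (v q) v).2 ⟨hv, rfl⟩
  have hE := h1.1 m r (N + 1) (Perm.decomposeFin.symm (0, e)) (swap 0 q.succ) w
  rw [← dec_mul, hfix] at hE
  have hswap : w ∘ (swap 0 q.succ) = w := by
    funext x
    rw [Function.comp_apply]
    rcases eq_or_ne x 0 with hx | hx
    · rw [hx, swap_apply_left, hw, Fin.cons_succ, Fin.cons_zero]
    · rcases eq_or_ne x q.succ with hx' | hx'
      · rw [hx', swap_apply_right, hw, Fin.cons_succ, Fin.cons_zero]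
      · rw [swap_apply_of_ne_of_ne hx hx']
  rw [hswap, h2 m r (N + 1) 0 q.succ w (Fin.succ_ne_zero _).symm (by rw [hw, Fin.cons_succ, Fin.cons_zero]),
    (h3.2.1 m r N e w)] at hE
  rw [hE]
  rfl

theorem t_TRC (h1 : S_EPS) (h2 : S_SWP) (h3 : S_RES) : S_TRC := by
  intro K _ m r N
  induction N with
  | zero =>
    intro σ l D
    have hσ : σ = 1 := Subsingleton.elim _ _
    subst hσ
    rw [Fintype.sum_eq_single (Fin.elim0) (fun w hw => absurd (Subsingleton.elim w _) hw)]
    simp [cmon, h1.2]
  | succ N ih =>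
    intro σ l D
    obtain ⟨p, e, rfl⟩ : ∃ p e, σ = Perm.decomposeFin.symm (p, e) :=
      ⟨(Perm.decomposeFin σ).1, (Perm.decomposeFin σ).2, by simp⟩
    rw [sum_cons]
    refine Fin.cases ?_ (fun q => ?_) p
    · rw [cmon]
      simp only [Equiv.apply_symm_apply, if_true]
      rw [map_mul, MvPolynomial.eval_X, ← ih e (fun i => l i.succ) D, psum, Finset.sum_mul_sum]
      apply Finset.sum_congr rfl
      intro a _
      apply Finset.sum_congr rfl
      intro v _
      rw [Fin.prod_univ_succ]
      simp only [Fin.cons_zero, Fin.cons_succ]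
      by_cases hv : v ∘ e = v
      · rw [if_pos ((fix_zero e a v).2 hv), if_pos hv, (h3.2.1 m r N e _)]
        simp only [Fin.cons_succ]
        ring
      · rw [if_neg (fun h => hv ((fix_zero e a v).1 h)), if_neg hv]
        ring
    · rw [cmon]
      simp only [Equiv.apply_symm_apply, Fin.succ_ne_zero, if_false]
      rw [← ih e _ D, Finset.sum_comm]
      apply Finset.sum_congr rfl
      intro v _
      rw [Finset.sum_eq_single (v q)]
      · by_cases hv : v ∘ e = v
        · rw [if_pos ((fix_succ e q (v q) v).2 ⟨hv, rfl⟩), if_pos hv, eps_succ h1 h2 h3 e q v hv, Fin.prod_univ_succ]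
          simp only [Fin.cons_zero, Fin.cons_succ, Fin.succ_inj]
          have hprod : ∏ x : Fin N, ((-1 : K) ^ par m (v x) *
              D (v x) ^ ((if x = q then l x.succ + l 0 + 1 else l x.succ) + 1)) =
              D (v q) ^ (l 0 + 1) * ∏ x : Fin N, ((-1 : K) ^ par m (v x) * D (v x) ^ (l x.succ + 1)) := by
            rw [← Finset.mul_prod_erase _ _ (Finset.mem_univ q), ← Finset.mul_prod_erase _ _ (Finset.mem_univ q),
              if_pos rfl]
            rw [Finset.prod_congr rfl (fun x hx => by rw [if_neg (Finset.ne_of_mem_erase hx)] :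
              ∀ x ∈ Finset.univ.erase q, ((-1 : K) ^ par m (v x) *
              D (v x) ^ ((if x = q then l x.succ + l 0 + 1 else l x.succ) + 1)) =
              (-1 : K) ^ par m (v x) * D (v x) ^ (l x.succ + 1))]
            ring
          rw [hprod]
          have hs : ((-1 : K) ^ par m (v q)) * (-1) ^ par m (v q) = 1 := by
            rw [← mul_pow]
            simp
          push_cast
          calc _ = ((-1 : K) ^ par m (v q)) * (-1) ^ par m (v q) * (D (v q) ^ (l 0 + 1) *
              ∏ x : Fin N, ((-1 : K) ^ par m (v x) * D (v x) ^ (l x.succ + 1))) * (eps m e v : K) := by ring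
            _ = _ := by rw [hs, one_mul]
        · rw [if_neg (fun h => hv ((fix_succ e q (v q) v).1 h).1), if_neg hv, mul_zero, mul_zero]
      · intro a _ ha
        rw [if_neg (fun h => ha ((fix_succ e q a v).1 h).2), mul_zero]
      · intro h
        exact absurd (Finset.mem_univ _) h

end Pool.Agent.L0h56.SD
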